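import Mathlib
import Pool.Agent.Q15.Translation

set_option autoImplicit false

/-!
# Families `g(z) + λ` over the algebraic closure of `F_p` with no colliding parameter

`g(x) = x + (x ^ (p ^ 2) - x) ^ (p + 1)` is not additive and commutes with the translations by
`F_{p^2}`.  For `θ` in `F_{p^2}` but not in `F_p` no `λ` makes both `0` and `1` pass through `θ`.
-/

namespace Pool.Agent.Results.MP_e06cf1_nt.EmptyCollision

open Polynomial Pool.Agent.Q15.Translation

/-- The set `C_g(α₁, α₂; β)` of parameters `λ` for which the forward orbits of `α₁` and of `α₂`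
under `z ↦ g(z) + λ` both pass through `β` after at least one step. -/
def collision {K : Type*} [Field K] (g : K[X]) (α₁ α₂ β : K) : Set K :=
  {l | ∃ m n : ℕ, 1 ≤ m ∧ 1 ≤ n ∧ (fun z => g.eval z + l)^[m] α₁ = β ∧
    (fun z => g.eval z + l)^[n] α₂ = β}

/-- `g` is additive as a function. (Over an infinite field this is the same as
`g(x + y) = g(x) + g(y)` as polynomials in `x` and `y`.) -/
def IsAdditive {K : Type*} [Field K] (g : K[X]) : Prop :=
  ∀ x y : K, g.eval (x + y) = g.eval x + g.eval y

section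

variable {K : Type*} [Field K] (p : ℕ) [Fact p.Prime] [CharP K p]

/-- The polynomial `x + (x ^ (p ^ 2) - x) ^ (p + 1)`. -/
noncomputable def G (K : Type*) [Field K] (p : ℕ) : K[X] :=
  X + (X ^ p ^ 2 - X) ^ (p + 1)

theorem G_eval (x : K) : (G K p).eval x = x + (x ^ p ^ 2 - x) ^ (p + 1) := by
  simp [G]

/-- The additive group of solutions of `v ^ (p ^ 2) = v`. -/
def V (K : Type*) [Field K] (p : ℕ) [Fact p.Prime] [CharP K p] : AddSubgroup K where
  carrier := {v | v ^ p ^ 2 = v}
  add_mem' := by
    intro a b ha hb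
    simp only [Set.mem_ofPred_eq] at *
    rw [add_pow_char_pow a b p, ha, hb]
  zero_mem' := by
    have := (Fact.out : p.Prime).pos
    simp only [Set.mem_ofPred_eq]
    exact zero_pow (by positivity)
  neg_mem' := by
    intro a ha
    simp only [Set.mem_ofPred_eq] at *
    rw [neg_eq_zero_sub, sub_pow_char_pow 0 a 2, ha, zero_pow]
    have := (Fact.out : p.Prime).pos
    positivity

theorem mem_V (v : K) : v ∈ V K p ↔ v ^ p ^ 2 = v := Iff.rfl

theorem G_translate (l x v : K) (hv : v ∈ V K p) :
    (G K p).eval (x + v) + l = (G K p).eval x + l + v := by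
  rw [mem_V] at hv
  rw [G_eval, G_eval, add_pow_char_pow x v p, hv]
  ring

theorem G_natDegree : (G K p).natDegree = p ^ 2 * (p + 1) := by
  have hp : 2 ≤ p := (Fact.out : p.Prime).two_le
  have h2 : 1 < p ^ 2 := by nlinarith
  have h1 : (X ^ p ^ 2 - X : K[X]).natDegree = p ^ 2 := by
    rw [natDegree_sub_eq_left_of_natDegree_lt] <;> simp [h2]
  have h3 : ((X ^ p ^ 2 - X : K[X]) ^ (p + 1)).natDegree = p ^ 2 * (p + 1) := by
    rw [natDegree_pow, h1, mul_comm]
  rw [G, natDegree_add_eq_right_of_natDegree_lt, h3]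
  rw [h3, natDegree_X]
  nlinarith

theorem G_not_additive [IsAlgClosed K] : ¬ IsAdditive (G K p) := by
  intro h
  have hp : 2 ≤ p := (Fact.out : p.Prime).two_le
  have h2 : 1 < p ^ 2 := by nlinarith
  -- `x ↦ x ^ (p ^ 2) - x` is surjective
  have hsurj : ∀ u : K, ∃ x : K, x ^ p ^ 2 - x = u := by
    intro u
    have hd : (X ^ p ^ 2 - X - C u : K[X]).natDegree = p ^ 2 := by
      rw [natDegree_sub_C, natDegree_sub_eq_left_of_natDegree_lt] <;> simp [h2]
    have hne : (X ^ p ^ 2 - X - C u : K[X]).degree ≠ 0 := by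
      intro h0
      have h5 := natDegree_eq_of_degree_eq_some (n := 0) h0
      rw [hd] at h5
      omega
    obtain ⟨x, hx⟩ := IsAlgClosed.exists_root _ hne
    refine ⟨x, ?_⟩
    simpa [IsRoot, sub_eq_zero] using hx
  -- some `u` has `u ^ p + u ≠ 0`
  have hu : ∃ u : K, u ^ p + u ≠ 0 := by
    by_contra hcon
    push Not at hcon
    have hd : (X ^ p + X : K[X]).natDegree = p := by
      rw [natDegree_add_eq_left_of_natDegree_lt, natDegree_X_pow]
      rw [natDegree_X_pow, natDegree_X]
      omega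
    have h0 : (X ^ p + X : K[X]) = 0 := by
      have : Infinite K := inferInstance
      refine Polynomial.funext fun u => ?_
      simpa using hcon u
    rw [h0, natDegree_zero] at hd
    omega
  obtain ⟨u, hu⟩ := hu
  obtain ⟨x, hx⟩ := hsurj u
  obtain ⟨y, hy⟩ := hsurj 1
  have h3 := h x y
  rw [G_eval, G_eval, G_eval, add_pow_char_pow x y p] at h3
  have h4 : x ^ p ^ 2 + y ^ p ^ 2 - (x + y) = u + 1 := by
    rw [← hx, ← hy]
    ring
  rw [h4, hx, hy, pow_succ (u + 1) p, add_pow_char u 1 p] at h3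
  apply hu
  linear_combination h3

theorem exists_theta [IsAlgClosed K] : ∃ θ : K, θ ^ p ^ 2 = θ ∧ θ ^ p ≠ θ := by
  have hp : 2 ≤ p := (Fact.out : p.Prime).two_le
  have h2 : 1 < p ^ 2 := by nlinarith
  by_contra hcon
  push Not at hcon
  have hsep : (X ^ p ^ 2 - X : K[X]).Separable :=
    galois_poly_separable p (p ^ 2) (dvd_pow_self p (by norm_num))
  have hd : (X ^ p ^ 2 - X : K[X]).natDegree = p ^ 2 := by
    rw [natDegree_sub_eq_left_of_natDegree_lt] <;> simp [h2]
  have hne : (X ^ p - X : K[X]) ≠ 0 := by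
    clear hd
    intro h0
    have hd : (X ^ p - X : K[X]).natDegree = p := by
      rw [natDegree_sub_eq_left_of_natDegree_lt, natDegree_X_pow]
      rw [natDegree_X_pow, natDegree_X]
      omega
    rw [h0, natDegree_zero] at hd
    omega
  have hcard : Multiset.card (X ^ p ^ 2 - X : K[X]).roots = p ^ 2 := by
    conv_rhs => rw [← hd]
    exact (splits_iff_card_roots.mp (IsAlgClosed.splits (X ^ p ^ 2 - X : K[X])))
  have hnodup := nodup_roots hsep
  have hle : (X ^ p ^ 2 - X : K[X]).roots ≤ (X ^ p - X : K[X]).roots := by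
    rw [Multiset.le_iff_subset hnodup]
    intro θ hθ
    rw [mem_roots'] at hθ
    rw [mem_roots hne]
    have h1 : θ ^ p ^ 2 = θ := by simpa [IsRoot, sub_eq_zero] using hθ.2
    have h3 := hcon θ h1
    simp [IsRoot, h3]
  have h1 := Multiset.card_le_card hle
  have h3 := card_roots' (X ^ p - X : K[X])
  have h4 : (X ^ p - X : K[X]).natDegree ≤ p := by
    rw [natDegree_sub_eq_left_of_natDegree_lt, natDegree_X_pow]
    rw [natDegree_X_pow, natDegree_X]
    omega
  rw [hcard] at h1
  nlinarith

theorem collision_empty (θ : K) (h1 : θ ^ p ^ 2 = θ) (h2 : θ ^ p ≠ θ) :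
    collision (G K p) 0 1 θ = ∅ := by
  ext l
  simp only [collision, Set.mem_ofPred_eq, Set.mem_empty_iff_false, iff_false, not_exists, not_and]
  intro m n _ _ hm hn
  set F : K → K := fun z => (G K p).eval z + l with hFdef
  have hF : ∀ x, ∀ v ∈ V K p, F (x + v) = F x + v := fun x v hv => G_translate p l x v hv
  have h1V : (1 : K) ∈ V K p := by
    rw [mem_V, one_pow]
  have hθV : θ ∈ V K p := h1
  have hn' : F^[n] 0 = θ - 1 := by
    have := iterate_add hF n 0 1 h1V
    rw [zero_add, hn] at this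
    rw [this]
    ring
  have hdm : disp F 0 m = θ := by simp [disp, hm]
  have hdn : disp F 0 n = θ - 1 := by simp [disp, hn']
  obtain ⟨c, -, i, j, hi, hj⟩ := exists_common hF 0 m n (by rw [hdm]; exact hθV)
    (by rw [hdn]; exact (V K p).sub_mem hθV h1V)
  rw [hdm, nsmul_eq_mul] at hi
  rw [hdn, nsmul_eq_mul] at hj
  -- `i, j` are fixed by Frobenius
  have hfix : ∀ a : ℕ, ((a : K)) ^ p = a := by
    intro a
    have h3 : (frobenius K p) (a : K) = a := map_natCast _ a
    rwa [frobenius_def] at h3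
  -- `(i - j) c = 1`
  have h3 : ((i : K) - j) * c = 1 := by linear_combination hj - hi
  have h4 : ((i : K) - j) ≠ 0 := by
    intro h0
    rw [h0, zero_mul] at h3
    exact zero_ne_one h3
  have h5 : ((i : K) - j) ^ p = (i : K) - j := by
    rw [sub_pow_char (i : K) j, hfix, hfix]
  have h6 : c ^ p = c := by
    have h7 : (((i : K) - j) * c) ^ p = 1 := by rw [h3, one_pow]
    rw [mul_pow, h5] at h7
    have h8 : ((i : K) - j) * c ^ p = ((i : K) - j) * c := by rw [h7, h3]
    exact mul_left_cancel₀ h4 h8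
  apply h2
  rw [hi, mul_pow, hfix, h6]

end

/-- For every prime `p` there are a non-additive polynomial `g` of degree at least `2` over the
algebraic closure of `F_p`, without constant term, and points `α₁`, `α₂`, `β` such that
`C_g(α₁, α₂; β)` is empty. -/
theorem result (p : ℕ) [Fact p.Prime] :
    ∃ (g : (AlgebraicClosure (ZMod p))[X]) (α₁ α₂ β : AlgebraicClosure (ZMod p)),
      2 ≤ g.natDegree ∧ g.eval 0 = 0 ∧ ¬ IsAdditive g ∧ collision g α₁ α₂ β = ∅ := by
  have : CharP (AlgebraicClosure (ZMod p)) p :=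
    charP_of_injective_algebraMap (algebraMap (ZMod p) (AlgebraicClosure (ZMod p))).injective p
  obtain ⟨θ, h1, h2⟩ := exists_theta (K := AlgebraicClosure (ZMod p)) p
  refine ⟨G _ p, 0, 1, θ, ?_, ?_, G_not_additive p, collision_empty p θ h1 h2⟩
  · rw [G_natDegree]
    have hp : 2 ≤ p := (Fact.out : p.Prime).two_le
    nlinarith
  · have hp : 0 < p := (Fact.out : p.Prime).pos
    rw [G_eval, zero_pow (by positivity)]
    simp

end Pool.Agent.Results.MP_e06cf1_nt.EmptyCollision
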